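import Mathlib

/-!
# Unions of `k` Euclidean pieces: definitions and the exact statements of the parts

`X` is always a finite metric space, partitioned into pieces by a surjective label function
`c : X → ι`; the piece with label `i` is `{x | c x = i}`.
-/

namespace Pool.Agent.W533.K

open Finset

universe u v

/-- `n`-dimensional Euclidean space. -/
abbrev E (n : ℕ) : Type := EuclideanSpace ℝ (Fin n)

/-- `ell k = 1 + log₂ (1 + k)`. -/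
noncomputable def ell (k : ℕ) : ℝ := 1 + Real.logb 2 (1 + k)

/-- The set `A` embeds with distortion `D` into a Euclidean space (only the values on `A`
matter). -/
def PieceEmb {X : Type u} [MetricSpace X] (D : ℝ) (A : Set X) : Prop :=
  ∃ (m : ℕ) (f : X → E m), ∀ x ∈ A, ∀ y ∈ A,
    dist x y ≤ ‖f x - f y‖ ∧ ‖f x - f y‖ ≤ D * dist x y

/-- Distance to the piece with label `i`. -/
noncomputable def pd {X : Type u} [MetricSpace X] {ι : Type} (c : X → ι) (i : ι) (x : X) : ℝ :=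
  Metric.infDist x {y | c y = i}

/-- Truncated exponential weight. -/
noncomputable def tw (Lm ε t : ℝ) : ℝ := max (Real.exp (-(Lm * t)) - Real.exp (-(Lm * ε))) 0

/-- Weights normalised in `ℓ₁`. -/
noncomputable def w1 {ι : Type} [Fintype ι] (Lm ε : ℝ) (p : ι → ℝ) (r : ℝ) (i : ι) : ℝ :=
  tw Lm ε (p i / r) / ∑ j, tw Lm ε (p j / r)

/-- Weights normalised in `ℓ₂`. -/
noncomputable def w2 {ι : Type} [Fintype ι] (Lm ε : ℝ) (p : ι → ℝ) (r : ℝ) (i : ι) : ℝ :=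
  tw Lm ε (p i / r) / √(∑ j, tw Lm ε (p j / r) ^ 2)

/-- Number of indices `j` with `p j < t`. -/
noncomputable def cntLt {ι : Type} [Fintype ι] (p : ι → ℝ) (t : ℝ) : ℕ := by
  classical exact (univ.filter fun j => p j < t).card

/-- Number of indices `j` with `p j ≤ t`. -/
noncomputable def cntLe {ι : Type} [Fintype ι] (p : ι → ℝ) (t : ℝ) : ℕ := by
  classical exact (univ.filter fun j => p j ≤ t).card

/-- Extension property: every `lam`-Lipschitz map from a piece into a Euclidean space extends to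
an `L * lam`-Lipschitz map on `X` which is `M * lam` close in the sense below. -/
def ExtProp {X : Type u} [MetricSpace X] {ι : Type} (c : X → ι) (L M : ℝ) : Prop :=
  ∀ (i : ι) (n : ℕ) (lam : ℝ) (h : X → E n), 0 ≤ lam →
    (∀ x y, c x = i → c y = i → ‖h x - h y‖ ≤ lam * dist x y) →
    ∃ H : X → E n, (∀ x y, ‖H x - H y‖ ≤ L * lam * dist x y) ∧
      ∀ x a, c a = i → ‖H x - h a‖ ≤ M * lam * dist x a

/-! ## The parts -/

/-- Kirszbraun's theorem for finite index sets. -/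
def Kirsz : Prop := ∀ (I : Type u) (_ : Finite I) (m n : ℕ) (S : Set I) (F : I → E m)
  (g : I → E n) (a : ℝ), 0 ≤ a → (∀ i ∈ S, ∀ j ∈ S, ‖g i - g j‖ ≤ a * ‖F i - F j‖) →
  ∃ G : I → E n, (∀ i ∈ S, G i = g i) ∧ ∀ i j, ‖G i - G j‖ ≤ a * ‖F i - F j‖

/-- Transfer of a Lipschitz map from an arbitrary set `Y` to a well embeddable set `A`. -/
def Transfer : Prop := ∀ (X : Type u) (_ : MetricSpace X) (_ : Finite X) (D K τ : ℝ),
  1 ≤ D → 2 < K → D ≤ τ * (1 - 2 / K) → ∀ (A Y : Set X), A.Nonempty → PieceEmb D A →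
  ∀ (n : ℕ) (lam : ℝ) (h : X → E n), 0 ≤ lam →
    (∀ x ∈ Y, ∀ y ∈ Y, ‖h x - h y‖ ≤ lam * dist x y) →
    ∃ h' : X → E n, (∀ x ∈ A, ∀ y ∈ A, ‖h' x - h' y‖ ≤ τ * lam * dist x y) ∧
      ∀ a ∈ A, ∀ b ∈ Y, ‖h' a - h b‖ ≤ (τ * (K + 2) + K) * lam * dist a b

/-- Variation of the `ℓ₁`-normalised weights. -/
def Weight1 : Prop := ∀ (ι : Type) (_ : Fintype ι) (p q : ι → ℝ) (r s δ ε : ℝ),
  0 < ε → ε ≤ 1 / 4 → 0 < r → δ ≤ r / 4 → |r - s| ≤ δ → (∀ i, |p i - q i| ≤ δ) →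
  (∀ i, 0 ≤ p i) → (∀ i, 0 ≤ q i) → (∃ i, p i = 0) → (∃ i, q i = 0) →
  ∑ i, |w1 (Real.log (2 * Fintype.card ι) / ε) ε p r i
      - w1 (Real.log (2 * Fintype.card ι) / ε) ε q s i|
    ≤ 14 * (Real.log (2 * Fintype.card ι) / ε) * δ / r

/-- Variation of the `ℓ₂`-normalised weights. -/
def Weight2 : Prop := ∀ (ι : Type) (_ : Fintype ι) (p q : ι → ℝ) (r s δ ε : ℝ),
  0 < ε → ε ≤ 1 / 4 → 0 < r → δ ≤ r / 4 → |r - s| ≤ δ → (∀ i, |p i - q i| ≤ δ) →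
  (∀ i, 0 ≤ p i) → (∀ i, 0 ≤ q i) → (∃ i, p i = 0) → (∃ i, q i = 0) →
  ∑ i, (w2 (Real.log (2 * Fintype.card ι) / ε) ε p r i
      - w2 (Real.log (2 * Fintype.card ι) / ε) ε q s i) ^ 2
    ≤ (14 * (Real.log (2 * Fintype.card ι) / ε) * δ / r) ^ 2

/-- The heavy pieces carry at most half of the weight. -/
def Heavy1 : Prop := ∀ (ι : Type) (_ : Fintype ι) (p w : ι → ℝ), (∀ i, 0 ≤ w i) →
  (∀ i j, p i ≤ p j → w j ≤ w i) → ∀ B : Finset ι,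
  (∀ i ∈ B, cntLt (fun j => - w j) 0 ≤ 2 * cntLt p (p i)) →
  2 * ∑ i ∈ B, w i ≤ ∑ i, w i

/-- The near pieces carry at least half of the squared weight. -/
def Heavy2 : Prop := ∀ (ι : Type) (_ : Fintype ι) (p w : ι → ℝ) (θ : ℝ), (∀ i, 0 ≤ w i) →
  (∀ i j, p i ≤ p j → w j ≤ w i) →
  cntLt (fun j => - w j) 0 ≤ 2 * cntLe p θ →
  ∀ N : Finset ι, (∀ i, p i ≤ θ → i ∈ N) → ∑ i, w i ^ 2 ≤ 2 * ∑ i ∈ N, w i ^ 2

/-- The kernel `2ρ²ρ'²/(ρ²+ρ'²+‖f-f'‖²)` is a Gram kernel. -/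
def Kernel : Prop := ∀ (X : Type u) (_ : Finite X) (m : ℕ) (f : X → E m) (ρ : X → ℝ),
  (∀ x, 0 < ρ x) → ∃ (n : ℕ) (g : X → E n), ∀ x y,
    inner ℝ (g x) (g y) = 2 * ρ x ^ 2 * ρ y ^ 2 / (ρ x ^ 2 + ρ y ^ 2 + ‖f x - f y‖ ^ 2)

/-- The maps `g` on the pieces. -/
def KPiece : Prop := ∀ (X : Type u) (_ : MetricSpace X) (_ : Finite X) (D : ℝ) (A : Set X)
  (ρ : X → ℝ), 1 ≤ D → D ≤ 5 / 4 → PieceEmb D A → (∀ x, 0 < ρ x) →
  (∀ x y, |ρ x - ρ y| ≤ dist x y) →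
  ∃ (n : ℕ) (g : X → E n), (∀ x, ‖g x‖ = ρ x) ∧
    (∀ x ∈ A, ∀ y ∈ A, ‖g x - g y‖ ≤ 2 * dist x y) ∧
    ∀ x ∈ A, ∀ y ∈ A, inner ℝ (g x) (g y)
      ≤ 2 * ρ x ^ 2 * ρ y ^ 2 / (ρ x ^ 2 + ρ y ^ 2 + dist x y ^ 2)

/-- Order statistics of the distances to the pieces. -/
def OrderStat : Prop := ∀ (X : Type u) (_ : MetricSpace X) (_ : Finite X) (ι : Type)
  (_ : Fintype ι) (c : X → ι), Function.Surjective c → ∀ (s : ℕ) (B : ℝ), 2 ≤ s → 0 < B →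
  ∃ ρ : X → ℝ, (∀ x, 0 < ρ x) ∧ (∀ x y, |ρ x - ρ y| ≤ dist x y) ∧
    (∀ x, cntLt (fun j => pd c j x) (ρ x) < s) ∧
    ∀ x θ, θ < B → ρ x ≤ θ → s ≤ cntLe (fun j => pd c j x) θ

/-- Data at one level: weights `ν`, maps `g` on the pieces and their extensions `G`. -/
structure LevelData {X : Type u} [MetricSpace X] {ι : Type} [Fintype ι] (c : X → ι)
    (ρ : X → ℝ) (ν : ι → X → ℝ) (n : ι → ℕ) (g G : (i : ι) → X → E (n i)) : Prop where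
  rho_pos : ∀ x, 0 < ρ x
  rho_lip : ∀ x y, |ρ x - ρ y| ≤ dist x y
  nu_nonneg : ∀ i x, 0 ≤ ν i x
  nu_sum : ∀ x, ∑ i, ν i x ^ 2 = 1
  nu_supp : ∀ i x, 0 < ν i x → pd c i x < ρ x / 5000
  close : ∀ i x a, c a = i → ‖G i x - g i a‖ ≤ 48 * dist x a
  g_norm : ∀ i a, c a = i → ‖g i a‖ = ρ a
  g_inner : ∀ i a b, c a = i → c b = i → inner ℝ (g i a) (g i b)
    ≤ 2 * ρ a ^ 2 * ρ b ^ 2 / (ρ a ^ 2 + ρ b ^ 2 + dist a b ^ 2)

/-- The squared distance of the images at one level. -/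
noncomputable def levelSq {X : Type u} [MetricSpace X] {ι : Type} [Fintype ι] (c : X → ι)
    (ρ : X → ℝ) (ν : ι → X → ℝ) (n : ι → ℕ) (G : (i : ι) → X → E (n i)) (x y : X) : ℝ :=
  (ρ x - ρ y) ^ 2 + ∑ i, ‖ν i x • G i x - ν i y • G i y‖ ^ 2
    + ∑ i, (ν i x * pd c i x - ν i y * pd c i y) ^ 2

/-- Lower bound at one level. -/
def Lower : Prop := ∀ (X : Type u) (_ : MetricSpace X) (_ : Finite X) (ι : Type)
  (_ : Fintype ι) (c : X → ι) (ρ : X → ℝ) (ν : ι → X → ℝ) (n : ι → ℕ)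
  (g G : (i : ι) → X → E (n i)), Function.Surjective c → LevelData c ρ ν n g G →
  ∀ x y, dist x y / 80000 < ρ x →
    (∀ N : Finset ι, (∀ i, pd c i x ≤ dist x y / 80000 → i ∈ N) →
      1 ≤ 2 * ∑ i ∈ N, ν i x ^ 2) →
    (dist x y / 160000) ^ 2 ≤ levelSq c ρ ν n G x y

/-- Upper bound at one level. -/
def Upper : Prop := ∀ (X : Type u) (_ : MetricSpace X) (_ : Finite X) (ι : Type)
  (_ : Fintype ι) (c : X → ι) (ρ : X → ℝ) (ν : ι → X → ℝ) (n : ι → ℕ)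
  (g G : (i : ι) → X → E (n i)) (L W : ℝ), Function.Surjective c → LevelData c ρ ν n g G →
  0 ≤ L → 0 ≤ W → (∀ i x y, ‖G i x - G i y‖ ≤ 2 * L * dist x y) →
  (∀ x y, dist x y ≤ ρ x / 4 → ∑ i, (ν i x - ν i y) ^ 2 ≤ (W * dist x y / ρ x) ^ 2) →
  ∀ x y, levelSq c ρ ν n G x y ≤ (20 * (L + W + 1) * dist x y) ^ 2

/-- The averaging step. -/
def Avg : Prop := ∀ (X : Type u) (_ : MetricSpace X) (_ : Finite X) (ι : Type)
  (_ : Fintype ι) (c : X → ι) (Y Z : Set X) (n : ℕ) (h : X → E n) (hi hh : ι → X → E n)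
  (ε c1 M1 M2 : ℝ), Function.Surjective c → Y.Nonempty → 0 < ε → ε ≤ 1 / 4 → 0 ≤ c1 →
  0 ≤ M1 → M1 * ε + c1 * (1 + ε) ≤ M2 →
  (∀ x ∈ Y, ∀ y ∈ Y, ‖h x - h y‖ ≤ M2 * dist x y) →
  (∀ i a b, c a = i → b ∈ Y → ‖hi i a - h b‖ ≤ c1 * dist a b) →
  (∀ x ∈ Z, x ∉ Y → ∀ i, pd c i x < Metric.infDist x Y →
    ∀ a, c a = i → ‖hh i x - hi i a‖ ≤ M1 * dist x a) →
  ∃ H : X → E n, (∀ x ∈ Y, H x = h x) ∧
    (∀ x ∈ Z, ∀ b ∈ Y, ‖H x - h b‖ ≤ M2 * dist x b) ∧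
    (∀ x ∈ Z, ∀ y ∈ Z, Metric.infDist x Y / 4 < dist x y → ‖H x - H y‖ ≤ 9 * M2 * dist x y) ∧
    ∀ x ∈ Z, ∀ y ∈ Z, x ∉ Y → dist x y ≤ Metric.infDist x Y / 4 →
      ‖H x - H y‖ ≤ ∑ i, w1 (Real.log (2 * Fintype.card ι) / ε) ε (fun i => pd c i x)
          (Metric.infDist x Y) i * ‖hh i x - hh i y‖
        + 18 * (Real.log (2 * Fintype.card ι) / ε) * M2 * dist x y

/-- The recursive extension theorem. -/
def ExtRec : Prop := ∀ (X : Type u) (_ : MetricSpace X) (_ : Finite X) (ι : Type)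
  (_ : Fintype ι) (c : X → ι) (D K τ A : ℝ), Function.Surjective c → 1 ≤ D → 4 ≤ K →
  1 ≤ τ → D ≤ τ * (1 - 2 / K) → (τ - 1) * ell (Fintype.card ι) ≤ 1 / 4 →
  (∀ i, PieceEmb D {x | c x = i}) →
  2880 * Real.log (2 * Fintype.card ι) * K ≤ A →
  ∀ (Y : Set X), Y.Nonempty → ∀ (n : ℕ) (lam : ℝ) (h : X → E n), 0 ≤ lam →
    (∀ x ∈ Y, ∀ y ∈ Y, ‖h x - h y‖ ≤ lam * dist x y) →
    ∃ H : X → E n, (∀ x y, ‖H x - H y‖ ≤ A * ell (Fintype.card ι) * lam * dist x y) ∧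
      ∀ x, ∀ b ∈ Y, ‖H x - h b‖ ≤ 10 * K * lam * dist x b

/-- The extension theorem with absolute closeness constant. -/
def ExtTop : Prop := ∀ (X : Type u) (_ : MetricSpace X) (_ : Finite X) (ι : Type)
  (_ : Fintype ι) (c : X → ι) (D : ℝ), Function.Surjective c → 1 ≤ D →
  D ≤ 1 + 1 / (16 * ell (Fintype.card ι)) → (∀ i, PieceEmb D {x | c x = i}) →
  ExtProp c (300000 * ell (Fintype.card ι) ^ 3) 24

/-- One level of the embedding. -/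
def Level : Prop := ∀ (X : Type u) (_ : MetricSpace X) (_ : Finite X) (ι : Type)
  (_ : Fintype ι) (c : X → ι) (D L : ℝ) (ρ : X → ℝ), Function.Surjective c → Nonempty X →
  1 ≤ D → D ≤ 5 / 4 → 1 ≤ L → (∀ i, PieceEmb D {x | c x = i}) → ExtProp c L 24 →
  (∀ x, 0 < ρ x) → (∀ x y, |ρ x - ρ y| ≤ dist x y) →
  ∃ (κ : Type) (_ : Fintype κ) (Ψ : X → κ → ℝ),
    (∀ x y, ∑ a, (Ψ x a - Ψ y a) ^ 2
      ≤ (20 * (L + 70000 * Real.log (2 * Fintype.card ι) + 1) * dist x y) ^ 2) ∧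
    ∀ x y, dist x y / 80000 < ρ x →
      cntLt (fun j => pd c j x) (ρ x) ≤ 2 * cntLe (fun j => pd c j x) (dist x y / 80000) →
      (dist x y / 160000) ^ 2 ≤ ∑ a, (Ψ x a - Ψ y a) ^ 2

/-- The theorem for finite spaces. -/
def FinEmb : Prop := ∃ C : ℝ, 0 < C ∧ ∀ (X : Type u) (_ : MetricSpace X) (_ : Finite X)
  (ι : Type) (_ : Fintype ι) (c : X → ι) (D : ℝ), Function.Surjective c → 1 ≤ D →
  D ≤ 1 + 1 / (16 * ell (Fintype.card ι)) → (∀ i, PieceEmb D {x | c x = i}) →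
  ∃ (κ : Type) (_ : Fintype κ) (Ψ : X → κ → ℝ), ∀ x y,
    dist x y ^ 2 ≤ ∑ a, (Ψ x a - Ψ y a) ^ 2 ∧
    ∑ a, (Ψ x a - Ψ y a) ^ 2 ≤ C * ell (Fintype.card ι) ^ 7 * dist x y ^ 2

/-- A map of distortion `D` into any inner product space gives `PieceEmb` for finite subsets. -/
def Coord : Prop := ∀ (X : Type u) (_ : MetricSpace X) (A : Set X) (D s : ℝ) (H : Type v)
  (_ : NormedAddCommGroup H) (_ : InnerProductSpace ℝ H) (f : A → H), 0 < s →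
  (∀ x y, s * dist x y ≤ ‖f x - f y‖ ∧ ‖f x - f y‖ ≤ s * D * dist x y) →
  ∀ T : Finset X, PieceEmb D (A ∩ (T : Set X))

/-- Passing from finite spaces to arbitrary ones. -/
def Cpt : Prop := ∃ C : ℝ, 0 < C ∧ ∀ k : ℕ, 1 ≤ k → ∀ (X : Type u) (_ : MetricSpace X)
  (A : Fin k → Set X) (D : ℝ), 1 ≤ D → D ≤ 1 + 1 / (16 * ell k) → (⋃ i, A i) = Set.univ →
  (∀ i (T : Finset X), PieceEmb D (A i ∩ (T : Set X))) →
  ∃ (H : Type u) (_ : NormedAddCommGroup H) (_ : InnerProductSpace ℝ H) (_ : CompleteSpace H)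
    (Φ : X → H), ∀ x y, dist x y ≤ ‖Φ x - Φ y‖ ∧
      ‖Φ x - Φ y‖ ≤ C * ell k ^ (7 / 2 : ℝ) * dist x y

/-- Continuous maps of separable spaces into Hilbert spaces can be moved to `ℓ₂`. -/
def SepL2 : Prop := ∀ (X : Type u) (_ : MetricSpace X) (H : Type v)
  (_ : NormedAddCommGroup H) (_ : InnerProductSpace ℝ H) (_ : CompleteSpace H) (Φ : X → H),
  TopologicalSpace.SeparableSpace X → Continuous Φ →
  ∃ Ψ : X → lp (fun _ : ℕ => ℝ) 2, ∀ x y, ‖Ψ x - Ψ y‖ = ‖Φ x - Φ y‖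

end Pool.Agent.W533.K
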