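import Pool.Agent.W533.K.Level

namespace Pool.Agent.W533.K

open Finset

universe u

lemma one_le_ell (k : ℕ) : 1 ≤ ell k := by
  unfold ell
  have h0 : (0 : ℝ) ≤ k := by positivity
  have : 0 ≤ Real.logb 2 (1 + k) := Real.logb_nonneg (by norm_num) (by linarith)
  linarith

lemma log_le_ell {k : ℕ} (hk : 1 ≤ k) : Real.log (2 * k) ≤ ell k := by
  have hk1 : (1 : ℝ) ≤ k := by exact_mod_cast hk
  have hl2' : 0 < Real.log 2 := Real.log_pos (by norm_num)
  have hl2'' : Real.log 2 < 1 := by linarith [Real.log_two_lt_d9]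
  have h1 : Real.log (2 * k) = Real.log 2 + Real.log k :=
    Real.log_mul (by norm_num) (by linarith)
  have h2 : Real.log k ≤ Real.log (1 + (k : ℝ)) := Real.log_le_log (by linarith) (by linarith)
  have h3 : 0 ≤ Real.log (1 + (k : ℝ)) := Real.log_nonneg (by linarith)
  have h4 : Real.log (1 + (k : ℝ)) ≤ Real.logb 2 (1 + k) := by
    unfold Real.logb
    rw [le_div_iff₀ hl2']
    nlinarith
  unfold ell
  linarith

lemma w1_sum_le {ι : Type} [Fintype ι] (Lm ε : ℝ) (p : ι → ℝ) (r : ℝ) :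
    ∑ i, w1 Lm ε p r i ≤ 1 := by
  unfold w1
  rw [← Finset.sum_div]
  exact div_self_le_one _

lemma w1_nonneg {ι : Type} [Fintype ι] (Lm ε : ℝ) (p : ι → ℝ) (r : ℝ) (i : ι) :
    0 ≤ w1 Lm ε p r i :=
  div_nonneg (tw_nonneg _ _ _) (Finset.sum_nonneg fun _ _ => tw_nonneg _ _ _)

theorem extTop (hT : Transfer.{u}) (hA : Avg.{u}) (hR : ExtRec.{u}) : ExtTop.{u} := by
  intro X mX hfin ι hι c D hc hD hD2 hpe i0 n lam h hlam hh0
  haveI : Nonempty ι := ⟨i0⟩
  have hk : 1 ≤ Fintype.card ι := Fintype.card_pos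
  have hlogpos : 0 < Real.log (2 * Fintype.card ι) := log_two_card_pos
  have hlogle : Real.log (2 * Fintype.card ι) ≤ ell (Fintype.card ι) := log_le_ell hk
  have hl1 : 1 ≤ ell (Fintype.card ι) := one_le_ell _
  obtain ⟨l, hl⟩ : ∃ l, l = ell (Fintype.card ι) := ⟨_, rfl⟩
  obtain ⟨q, hq⟩ : ∃ q, q = Real.log (2 * Fintype.card ι) := ⟨_, rfl⟩
  rw [← hl] at hl1 hD2 hlogle
  rw [← hq] at hlogpos hlogle
  rw [← hl]
  have hl0 : 0 < l := by linarith
  have h16 : 1 / (16 * l) ≤ 1 / 16 := by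
    rw [div_le_div_iff₀ (by positivity) (by norm_num)]
    linarith
  have hTi : ∀ i, ∃ h' : X → E n,
      (∀ x ∈ {x | c x = i}, ∀ y ∈ {x | c x = i}, ‖h' x - h' y‖ ≤ 5 / 2 * lam * dist x y) ∧
      ∀ a ∈ {x | c x = i}, ∀ b ∈ {x | c x = i0},
        ‖h' a - h b‖ ≤ (5 / 2 * (4 + 2) + 4) * lam * dist a b := fun i =>
    hT X mX hfin D 4 (5 / 2) hD (by norm_num) (by norm_num; linarith) {x | c x = i}
      {x | c x = i0} (hc i) (hpe i) n lam h hlam (fun x hx y hy => hh0 x y hx hy)
  choose hi hi1 hi2 using hTi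
  have hRi : ∀ i, ∃ H : X → E n,
      (∀ x y, ‖H x - H y‖ ≤ (2880 * q * (16 * l)) * l * (5 / 2 * lam) * dist x y) ∧
      ∀ x, ∀ b ∈ {x | c x = i}, ‖H x - hi i b‖ ≤ 10 * (16 * l) * (5 / 2 * lam) * dist x b := by
    intro i
    have := hR X mX hfin ι hι c D (16 * l) (1 + 1 / (4 * l)) (2880 * q * (16 * l)) hc hD
      (by linarith) (by have : 0 ≤ 1 / (4 * l) := by positivity
                        linarith) ?_ ?_ hpe (by rw [hq]) {x | c x = i} (hc i) n (5 / 2 * lam)
      (hi i) (by positivity) (hi1 i)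
    · rw [← hl] at this
      exact this
    · refine hD2.trans ?_
      have e1 : (1 + 1 / (4 * l)) * (1 - 2 / (16 * l)) - (1 + 1 / (16 * l))
          = (2 * l - 1) / (32 * l ^ 2) := by
        field_simp
        ring
      have e2 : 0 ≤ (2 * l - 1) / (32 * l ^ 2) := div_nonneg (by linarith) (by positivity)
      linarith
    · rw [← hl]
      have : (1 + 1 / (4 * l) - 1) * l = 1 / 4 := by
        field_simp
        ring
      exact this.le
  choose hh hh1 hh2 using hRi
  have hε : (0 : ℝ) < 1 / (16 * (16 * l)) := by positivity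
  have hε2 : 1 / (16 * (16 * l)) ≤ 1 / 256 := by
    rw [div_le_div_iff₀ (by positivity) (by norm_num)]
    linarith
  obtain ⟨H, H1, H2, H3, H4⟩ := hA X mX hfin ι hι c {x | c x = i0} Set.univ n h hi hh
    (1 / (16 * (16 * l))) (19 * lam) (25 * (16 * l) * lam) (24 * lam) hc (hc i0) hε
    (by linarith) (by positivity) (by positivity) (by
      have e1 : 25 * (16 * l) * lam * (1 / (16 * (16 * l))) = 25 / 16 * lam := by
        field_simp
      rw [e1]
      have e2 : 19 * lam * (1 + 1 / (16 * (16 * l))) ≤ 19 * lam * (1 + 1 / 256) :=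
        mul_le_mul_of_nonneg_left (by linarith) (by positivity)
      nlinarith) (by
      intro x hx y hy
      refine (hh0 x y hx hy).trans ?_
      exact mul_le_mul_of_nonneg_right (by linarith) dist_nonneg) (by
      intro i a b ha hb
      refine (hi2 i a ha b hb).trans (le_of_eq ?_)
      ring) (by
      intro x _ _ i _ a ha
      refine (hh2 i x a ha).trans (le_of_eq ?_)
      ring)
  refine ⟨H, ?_, ?_⟩
  swap
  · intro x a ha
    exact H2 x (Set.mem_univ _) a ha
  intro x y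
  have hd : 0 ≤ dist x y := dist_nonneg
  have hll : l ≤ l ^ 2 := by nlinarith
  have hll2 : l ^ 2 ≤ l ^ 3 := by nlinarith [sq_nonneg l]
  rcases lt_or_ge (Metric.infDist x {x | c x = i0} / 4) (dist x y) with hfar | hnear
  · refine (H3 x (Set.mem_univ _) y (Set.mem_univ _) hfar).trans ?_
    refine mul_le_mul_of_nonneg_right ?_ hd
    have : (1 : ℝ) ≤ l ^ 3 := by linarith
    nlinarith
  by_cases hx : x ∈ {x | c x = i0}
  · have h0 : Metric.infDist x {x | c x = i0} = 0 := Metric.infDist_zero_of_mem hx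
    rw [h0, zero_div] at hnear
    have h1 : dist x y = 0 := le_antisymm hnear hd
    rw [dist_eq_zero.mp h1, sub_self, norm_zero, dist_self, mul_zero]
  refine (H4 x (Set.mem_univ _) y (Set.mem_univ _) hx hnear).trans ?_
  have hs : ∑ i, w1 (Real.log (2 * Fintype.card ι) / (1 / (16 * (16 * l)))) (1 / (16 * (16 * l)))
      (fun i => pd c i x) (Metric.infDist x {x | c x = i0}) i * ‖hh i x - hh i y‖
      ≤ (2880 * q * (16 * l)) * l * (5 / 2 * lam) * dist x y := by
    have h5 : 0 ≤ (2880 * q * (16 * l)) * l * (5 / 2 * lam) * dist x y := by positivity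
    calc _ ≤ ∑ i, w1 (Real.log (2 * Fintype.card ι) / (1 / (16 * (16 * l))))
          (1 / (16 * (16 * l))) (fun i => pd c i x) (Metric.infDist x {x | c x = i0}) i
          * ((2880 * q * (16 * l)) * l * (5 / 2 * lam) * dist x y) :=
          Finset.sum_le_sum fun i _ =>
            mul_le_mul_of_nonneg_left (hh1 i x y) (w1_nonneg _ _ _ _ _)
      _ ≤ 1 * ((2880 * q * (16 * l)) * l * (5 / 2 * lam) * dist x y) := by
          rw [← Finset.sum_mul]
          exact mul_le_mul_of_nonneg_right (w1_sum_le _ _ _ _) h5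
      _ = _ := one_mul _
  rw [← hq] at hs ⊢
  have e3 : 18 * (q / (1 / (16 * (16 * l)))) * (24 * lam) * dist x y
      = 110592 * (l * q) * (lam * dist x y) := by
    field_simp
    ring
  have e4 : (2880 * q * (16 * l)) * l * (5 / 2 * lam) * dist x y
      = 115200 * (l ^ 2 * q) * (lam * dist x y) := by ring
  rw [e3]
  rw [e4] at hs
  have e5 : l * q ≤ l ^ 3 := by
    calc l * q ≤ l * l := mul_le_mul_of_nonneg_left hlogle hl0.le
      _ = l ^ 2 := by ring
      _ ≤ _ := hll2
  have e6 : l ^ 2 * q ≤ l ^ 3 := by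
    calc l ^ 2 * q ≤ l ^ 2 * l := mul_le_mul_of_nonneg_left hlogle (by positivity)
      _ = l ^ 3 := by ring
  have hld : 0 ≤ lam * dist x y := mul_nonneg hlam hd
  have e7 := mul_le_mul_of_nonneg_right e5 hld
  have e8 := mul_le_mul_of_nonneg_right e6 hld
  have e9 : 0 ≤ l ^ 3 * (lam * dist x y) := by positivity
  calc _ ≤ 115200 * (l ^ 2 * q) * (lam * dist x y) + 110592 * (l * q) * (lam * dist x y) :=
        add_le_add_left hs _
    _ ≤ 300000 * (l ^ 3 * (lam * dist x y)) := by linarith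
    _ = _ := by ring

end Pool.Agent.W533.K
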