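import Pool.Agent.W533.K.Defs

namespace Pool.Agent.W533.K

open Finset

theorem heavy1 : Heavy1 := by
  classical
  intro ι _ p w hw hanti B hB
  have hcard : cntLt (fun j => - w j) 0 = (univ.filter fun j => 0 < w j).card := by
    unfold cntLt
    congr 1
    ext j
    simp
  have hcnt : ∀ i, cntLt p (p i) = (univ.filter fun j => p j < p i).card := by
    intro i
    unfold cntLt
    congr 1
  set B' := B.filter fun i => 0 < w i with hB'
  have hsumB : ∑ i ∈ B, w i = ∑ i ∈ B', w i := by
    rw [hB', Finset.sum_filter]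
    refine Finset.sum_congr rfl fun i _ => ?_
    split_ifs with h
    · rfl
    · exact le_antisymm (not_lt.mp h) (hw i)
  have htot : ∑ i ∈ B', w i ≤ ∑ i, w i :=
    Finset.sum_le_sum_of_subset_of_nonneg (Finset.subset_univ _) fun i _ _ => hw i
  rcases B'.eq_empty_or_nonempty with he | hne
  · rw [hsumB, he, Finset.sum_empty, mul_zero]
    exact Finset.sum_nonneg fun i _ => hw i
  obtain ⟨i0, hi0, hmin⟩ := Finset.exists_min_image B' p hne
  set P := univ.filter fun j => p j < p i0 with hP
  have hi0' := Finset.mem_filter.mp hi0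
  have hdis : Disjoint B' P := by
    rw [Finset.disjoint_left]
    intro j hj hjP
    have h1 := hmin j hj
    have h2 := (Finset.mem_filter.mp hjP).2
    linarith
  have hsub : B' ∪ P ⊆ univ.filter fun j => 0 < w j := by
    intro j hj
    rcases Finset.mem_union.mp hj with h | h
    · exact Finset.mem_filter.mpr ⟨Finset.mem_univ _, (Finset.mem_filter.mp h).2⟩
    · refine Finset.mem_filter.mpr ⟨Finset.mem_univ _, ?_⟩
      exact lt_of_lt_of_le hi0'.2 (hanti j i0 (Finset.mem_filter.mp h).2.le)
  have hc := Finset.card_le_card hsub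
  rw [Finset.card_union_of_disjoint hdis] at hc
  have h1 := hB i0 hi0'.1
  rw [hcard, hcnt, ← hP] at h1
  have h2 : B'.card ≤ P.card := by omega
  have h3 : ∑ i ∈ B', w i ≤ B'.card * w i0 := by
    have := Finset.sum_le_card_nsmul B' w (w i0) fun i hi => hanti i0 i (hmin i hi)
    simpa using this
  have h4 : (P.card : ℝ) * w i0 ≤ ∑ i ∈ P, w i := by
    have := Finset.card_nsmul_le_sum P w (w i0) fun j hj =>
      hanti j i0 (Finset.mem_filter.mp hj).2.le
    simpa using this
  have h5 : (B'.card : ℝ) * w i0 ≤ P.card * w i0 :=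
    mul_le_mul_of_nonneg_right (by exact_mod_cast h2) (hw i0)
  have h6 : ∑ i ∈ B', w i + ∑ i ∈ P, w i ≤ ∑ i, w i := by
    rw [← Finset.sum_union hdis]
    exact Finset.sum_le_sum_of_subset_of_nonneg (Finset.subset_univ _) fun i _ _ => hw i
  rw [hsumB]
  linarith

theorem heavy2 : Heavy2 := by
  classical
  intro ι _ p w θ hw hanti hcount N hN
  have hcard : cntLt (fun j => - w j) 0 = (univ.filter fun j => 0 < w j).card := by
    unfold cntLt
    congr 1
    ext j
    simp
  have hcnt : cntLe p θ = (univ.filter fun j => p j ≤ θ).card := by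
    unfold cntLe
    congr 1
  rw [hcard, hcnt] at hcount
  set P := univ.filter fun j => p j ≤ θ with hP
  set F := (univ \ N).filter fun i => 0 < w i with hF
  have hPN : P ⊆ N := fun i hi => hN i (Finset.mem_filter.mp hi).2
  have hsplit : ∑ i, w i ^ 2 = ∑ i ∈ F, w i ^ 2 + ∑ i ∈ N, w i ^ 2 := by
    rw [← Finset.sum_sdiff (Finset.subset_univ N)]
    congr 1
    rw [hF, Finset.sum_filter]
    refine Finset.sum_congr rfl fun i _ => ?_
    split_ifs with h
    · rfl
    · rw [le_antisymm (not_lt.mp h) (hw i)]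
      ring
  have hPle : ∑ i ∈ P, w i ^ 2 ≤ ∑ i ∈ N, w i ^ 2 :=
    Finset.sum_le_sum_of_subset_of_nonneg hPN fun i _ _ => sq_nonneg _
  have hkey : ∑ i ∈ F, w i ^ 2 ≤ ∑ i ∈ P, w i ^ 2 := by
    rcases F.eq_empty_or_nonempty with he | hne
    · rw [he, Finset.sum_empty]
      exact Finset.sum_nonneg fun i _ => sq_nonneg _
    obtain ⟨i0, hi0, hmin⟩ := Finset.exists_min_image F p hne
    have hi0' := Finset.mem_filter.mp hi0
    have hθ : θ < p i0 := by
      by_contra hcon
      exact (Finset.mem_sdiff.mp hi0'.1).2 (hN i0 (not_lt.mp hcon))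
    have hdis : Disjoint F P := by
      rw [Finset.disjoint_left]
      intro j hj hjP
      exact (Finset.mem_sdiff.mp (Finset.mem_filter.mp hj).1).2 (hPN hjP)
    have hge : ∀ j ∈ P, w i0 ≤ w j := fun j hj =>
      hanti j i0 ((Finset.mem_filter.mp hj).2.trans hθ.le)
    have hsub : F ∪ P ⊆ univ.filter fun j => 0 < w j := by
      intro j hj
      rcases Finset.mem_union.mp hj with h | h
      · exact Finset.mem_filter.mpr ⟨Finset.mem_univ _, (Finset.mem_filter.mp h).2⟩
      · exact Finset.mem_filter.mpr ⟨Finset.mem_univ _, lt_of_lt_of_le hi0'.2 (hge j h)⟩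
    have hc := Finset.card_le_card hsub
    rw [Finset.card_union_of_disjoint hdis] at hc
    have h2 : F.card ≤ P.card := by omega
    have h3 : ∑ i ∈ F, w i ^ 2 ≤ F.card * w i0 ^ 2 := by
      have := Finset.sum_le_card_nsmul F (fun i => w i ^ 2) (w i0 ^ 2) fun i hi =>
        pow_le_pow_left₀ (hw i) (hanti i0 i (hmin i hi)) 2
      simpa using this
    have h4 : (P.card : ℝ) * w i0 ^ 2 ≤ ∑ i ∈ P, w i ^ 2 := by
      have := Finset.card_nsmul_le_sum P (fun i => w i ^ 2) (w i0 ^ 2) fun j hj =>
        pow_le_pow_left₀ (hw i0) (hge j hj) 2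
      simpa using this
    have h5 : (F.card : ℝ) * w i0 ^ 2 ≤ P.card * w i0 ^ 2 :=
      mul_le_mul_of_nonneg_right (by exact_mod_cast h2) (sq_nonneg _)
    linarith
  rw [hsplit]
  linarith

end Pool.Agent.W533.K
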