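import Pool.Agent.W533.K.Defs

namespace Pool.Agent.W533.K

universe u

lemma kp_id (r s F : ℝ) (h : 0 < r ^ 2 + s ^ 2 + F) :
    r ^ 2 + s ^ 2 - 2 * (2 * r ^ 2 * s ^ 2 / (r ^ 2 + s ^ 2 + F))
      = ((r ^ 2 - s ^ 2) ^ 2 + (r ^ 2 + s ^ 2) * F) / (r ^ 2 + s ^ 2 + F) := by
  field_simp
  ring

theorem kpiece (h : Kernel.{u}) : KPiece.{u} := by
  intro X mX _ D A ρ hD1 hD2 hA hρ hρL
  obtain ⟨m, f, hf⟩ := hA
  obtain ⟨n, g, hg⟩ := h X inferInstance m f ρ hρ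
  have hn : ∀ x, ‖g x‖ ^ 2 = ρ x ^ 2 := by
    intro x
    have h1 := hg x x
    rw [real_inner_self_eq_norm_sq] at h1
    rw [h1, sub_self, norm_zero]
    have := hρ x
    field_simp
    ring
  have hnn : ∀ x, ‖g x‖ = ρ x := by
    intro x
    have h1 := hn x
    exact (pow_left_inj₀ (norm_nonneg _) (hρ x).le two_ne_zero).mp h1
  refine ⟨n, g, hnn, ?_, ?_⟩
  · intro x hx y hy
    obtain ⟨h1, h2⟩ := hf x hx y hy
    have hd : 0 ≤ dist x y := dist_nonneg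
    have hr := hρ x
    have hs := hρ y
    have hL := abs_le.mp (hρL x y)
    have hF0 : 0 ≤ ‖f x - f y‖ := norm_nonneg _
    have hden : 0 < ρ x ^ 2 + ρ y ^ 2 + ‖f x - f y‖ ^ 2 := by positivity
    have h3 : ‖g x - g y‖ ^ 2 = ((ρ x ^ 2 - ρ y ^ 2) ^ 2
        + (ρ x ^ 2 + ρ y ^ 2) * ‖f x - f y‖ ^ 2) / (ρ x ^ 2 + ρ y ^ 2 + ‖f x - f y‖ ^ 2) := by
      rw [norm_sub_sq_real, hg x y, hn, hn, ← kp_id _ _ _ hden]
      ring
    have h4 : ‖g x - g y‖ ^ 2 ≤ 2 * (ρ x - ρ y) ^ 2 + ‖f x - f y‖ ^ 2 := by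
      rw [h3, div_le_iff₀ hden]
      have e1 : (ρ x ^ 2 - ρ y ^ 2) ^ 2 = (ρ x - ρ y) ^ 2 * (ρ x + ρ y) ^ 2 := by ring
      have e2 : (ρ x + ρ y) ^ 2 ≤ 2 * (ρ x ^ 2 + ρ y ^ 2) := by nlinarith [sq_nonneg (ρ x - ρ y)]
      have e3 := mul_le_mul_of_nonneg_left e2 (sq_nonneg (ρ x - ρ y))
      have e4 : 0 ≤ (ρ x - ρ y) ^ 2 * ‖f x - f y‖ ^ 2 := by positivity
      have e5 : 0 ≤ ‖f x - f y‖ ^ 2 * ‖f x - f y‖ ^ 2 := by positivity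
      nlinarith
    have h5 : (ρ x - ρ y) ^ 2 ≤ dist x y ^ 2 := sq_le_sq' hL.1 hL.2
    have h6 : ‖f x - f y‖ ^ 2 ≤ (5 / 4 * dist x y) ^ 2 :=
      pow_le_pow_left₀ hF0 (h2.trans (mul_le_mul_of_nonneg_right hD2 hd)) 2
    have h7 : ‖g x - g y‖ ^ 2 ≤ (2 * dist x y) ^ 2 := by nlinarith
    exact (pow_le_pow_iff_left₀ (norm_nonneg _) (by positivity) two_ne_zero).mp h7
  · intro x hx y hy
    rw [hg x y]
    obtain ⟨h1, h2⟩ := hf x hx y hy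
    have hd : 0 ≤ dist x y := dist_nonneg
    have hr := hρ x
    have hs := hρ y
    have h3 : dist x y ^ 2 ≤ ‖f x - f y‖ ^ 2 := pow_le_pow_left₀ hd h1 2
    exact div_le_div_of_nonneg_left (by positivity) (by positivity) (by linarith)

end Pool.Agent.W533.K
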