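import Pool.Agent.W533.K.Defs

namespace Pool.Agent.W533.K

open Finset

universe u

lemma tw_nonneg (Lm ε t : ℝ) : 0 ≤ tw Lm ε t := le_max_right _ _

lemma tw_pos_imp {Lm ε t : ℝ} (hL : 0 < Lm) (h : 0 < tw Lm ε t) : t < ε := by
  unfold tw at h
  rcases lt_max_iff.mp h with h | h
  · have h1 : Real.exp (-(Lm * ε)) < Real.exp (-(Lm * t)) := by linarith
    have h2 := Real.exp_lt_exp.mp h1
    have h3 : Lm * t < Lm * ε := by linarith
    exact lt_of_mul_lt_mul_left h3 hL.le
  · exact absurd h (lt_irrefl _)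

lemma tw_anti {Lm ε t t' : ℝ} (hL : 0 ≤ Lm) (h : t ≤ t') : tw Lm ε t' ≤ tw Lm ε t := by
  unfold tw
  refine max_le_max ?_ le_rfl
  have : Real.exp (-(Lm * t')) ≤ Real.exp (-(Lm * t)) := by
    apply Real.exp_le_exp.mpr
    have := mul_le_mul_of_nonneg_left h hL
    linarith
  linarith

lemma tw_zero_pos {Lm ε : ℝ} (hL : 0 < Lm) (hε : 0 < ε) : 0 < tw Lm ε 0 := by
  unfold tw
  refine lt_max_of_lt_left ?_
  have : Real.exp (-(Lm * ε)) < Real.exp (-(Lm * 0)) := by
    apply Real.exp_lt_exp.mpr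
    have := mul_pos hL hε
    linarith
  linarith

lemma log_two_card_pos {ι : Type} [Fintype ι] [Nonempty ι] :
    0 < Real.log (2 * Fintype.card ι) := by
  apply Real.log_pos
  have : (1 : ℝ) ≤ Fintype.card ι := by exact_mod_cast Fintype.card_pos
  linarith

section
variable {ι : Type} [Fintype ι] {Lm ε r : ℝ} {p : ι → ℝ}

lemma w2_den_pos (hL : 0 < Lm) (hε : 0 < ε) (hp : ∃ i, p i = 0) :
    0 < √(∑ j, tw Lm ε (p j / r) ^ 2) := by
  obtain ⟨i, hi⟩ := hp
  apply Real.sqrt_pos.mpr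
  refine Finset.sum_pos' (fun j _ => sq_nonneg _) ⟨i, Finset.mem_univ _, ?_⟩
  rw [hi, zero_div]
  exact pow_pos (tw_zero_pos hL hε) 2

lemma w2_nonneg (i : ι) : 0 ≤ w2 Lm ε p r i :=
  div_nonneg (tw_nonneg _ _ _) (Real.sqrt_nonneg _)

lemma w2_pos_imp (hL : 0 < Lm) (hr : 0 < r) {i : ι} (h : 0 < w2 Lm ε p r i) :
    p i < ε * r := by
  have h1 : 0 < tw Lm ε (p i / r) := by
    by_contra hcon
    have h2 : tw Lm ε (p i / r) = 0 := le_antisymm (not_lt.mp hcon) (tw_nonneg _ _ _)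
    unfold w2 at h
    rw [h2, zero_div] at h
    exact lt_irrefl _ h
  have h2 := tw_pos_imp hL h1
  rwa [div_lt_iff₀ hr] at h2

lemma w2_anti (hL : 0 ≤ Lm) (hr : 0 < r) (i j : ι) (h : p i ≤ p j) :
    w2 Lm ε p r j ≤ w2 Lm ε p r i := by
  unfold w2
  refine div_le_div_of_nonneg_right (tw_anti hL ?_) (Real.sqrt_nonneg _)
  exact div_le_div_of_nonneg_right h hr.le

lemma w2_sum (hL : 0 < Lm) (hε : 0 < ε) (hp : ∃ i, p i = 0) : ∑ i, w2 Lm ε p r i ^ 2 = 1 := by
  have hd := w2_den_pos (r := r) hL hε hp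
  have hs : 0 ≤ ∑ j, tw Lm ε (p j / r) ^ 2 := Finset.sum_nonneg fun _ _ => sq_nonneg _
  unfold w2
  simp_rw [div_pow]
  rw [← Finset.sum_div, Real.sq_sqrt hs]
  refine div_self ?_
  intro h
  rw [h, Real.sqrt_zero] at hd
  exact lt_irrefl _ hd

end

theorem level (h1 : KPiece.{u}) (h2 : Weight2) (h3 : Heavy2) (h4 : Lower.{u})
    (h5 : Upper.{u}) : Level.{u} := by
  classical
  intro X mX hfin ι hι c D L ρ hc hne hD1 hD2 hL hpe hext hρ hρL
  haveI : Nonempty ι := hne.map c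
  choose n g hgn hgl hgi using fun i =>
    h1 X mX hfin D {x | c x = i} ρ hD1 hD2 (hpe i) hρ hρL
  choose G hGl hGc using fun i => hext i (n i) 2 (g i) (by norm_num)
    (fun x y hx hy => hgl i x hx y hy)
  have hlog : 0 < Real.log (2 * Fintype.card ι) := log_two_card_pos
  obtain ⟨Lm, hLm⟩ : ∃ Lm, Lm = Real.log (2 * Fintype.card ι) / (1 / 5000) := ⟨_, rfl⟩
  have hLmpos : 0 < Lm := by rw [hLm]; positivity
  have hpd0 : ∀ x, ∃ i, pd c i x = 0 := fun x =>
    ⟨c x, Metric.infDist_zero_of_mem (by simp)⟩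
  obtain ⟨ν, hν⟩ : ∃ ν : ι → X → ℝ, ν = fun i x => w2 Lm (1 / 5000) (fun j => pd c j x) (ρ x) i :=
    ⟨_, rfl⟩
  have hLD : LevelData c ρ ν n g G := by
    refine ⟨hρ, hρL, ?_, ?_, ?_, ?_, ?_, ?_⟩
    · intro i x
      rw [hν]
      exact w2_nonneg i
    · intro x
      rw [hν]
      exact w2_sum hLmpos (by norm_num) (hpd0 x)
    · intro i x h
      rw [hν] at h
      have := w2_pos_imp hLmpos (hρ x) h
      linarith
    · intro i x a ha
      have := hGc i x a ha
      linarith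
    · intro i a _
      exact hgn i a
    · intro i a b ha hb
      exact hgi i a ha b hb
  have hΨ : ∀ x y, ∑ a : (Unit ⊕ ((Σ i, Fin (n i)) ⊕ ι)),
      ((Sum.elim (fun _ => ρ x) (Sum.elim (fun q : (Σ i, Fin (n i)) => (ν q.1 x • G q.1 x) q.2)
        (fun i => ν i x * pd c i x)) a)
      - (Sum.elim (fun _ => ρ y) (Sum.elim (fun q : (Σ i, Fin (n i)) => (ν q.1 y • G q.1 y) q.2)
        (fun i => ν i y * pd c i y)) a)) ^ 2 = levelSq c ρ ν n G x y := by
    intro x y
    rw [Fintype.sum_sum_type, Fintype.sum_sum_type, Fintype.sum_sigma]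
    simp only [Sum.elim_inl, Sum.elim_inr, Finset.univ_unique, Finset.sum_singleton]
    unfold levelSq
    rw [add_assoc]
    congr 2
    refine Finset.sum_congr rfl fun i _ => ?_
    rw [EuclideanSpace.norm_sq_eq]
    refine Finset.sum_congr rfl fun j _ => ?_
    rw [Real.norm_eq_abs, sq_abs]
    rfl
  refine ⟨Unit ⊕ ((Σ i, Fin (n i)) ⊕ ι), inferInstance, fun x => Sum.elim (fun _ => ρ x)
    (Sum.elim (fun q : (Σ i, Fin (n i)) => (ν q.1 x • G q.1 x) q.2)
        (fun i => ν i x * pd c i x)), ?_, ?_⟩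
  · intro x y
    rw [hΨ x y]
    have hW : ∀ x y, dist x y ≤ ρ x / 4 → ∑ i, (ν i x - ν i y) ^ 2
        ≤ ((70000 * Real.log (2 * Fintype.card ι)) * dist x y / ρ x) ^ 2 := by
      intro x y hxy
      have := h2 ι hι (fun j => pd c j x) (fun j => pd c j y) (ρ x) (ρ y) (dist x y) (1 / 5000)
        (by norm_num) (by norm_num) (hρ x) hxy (hρL x y)
        (fun i => by
          rw [← Real.dist_eq]
          exact (Metric.lipschitz_infDist_pt _).dist_le_mul x y |>.trans (by simp))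
        (fun i => Metric.infDist_nonneg) (fun i => Metric.infDist_nonneg) (hpd0 x) (hpd0 y)
      rw [hν, hLm]
      refine this.trans (le_of_eq ?_)
      congr 2
      ring
    exact h5 X mX hfin ι hι c ρ ν n g G L _ hc hLD (by linarith) (by positivity)
      (fun i x y => by
        have := hGl i x y
        linarith) hW x y
  · intro x y hxy hcnt
    rw [hΨ x y]
    refine h4 X mX hfin ι hι c ρ ν n g G hc hLD x y hxy ?_
    intro N hN
    have hsupp : cntLt (fun j => - ν j x) 0 ≤ cntLt (fun j => pd c j x) (ρ x) := by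
      unfold cntLt
      refine Finset.card_le_card fun j hj => ?_
      have hj' := (Finset.mem_filter.mp hj).2
      refine Finset.mem_filter.mpr ⟨Finset.mem_univ _, ?_⟩
      have h6 := hLD.nu_supp j x (by linarith)
      have h7 := hρ x
      linarith
    have h8 := h3 ι hι (fun j => pd c j x) (fun j => ν j x) (dist x y / 80000)
      (fun j => hLD.nu_nonneg j x) (fun i j hij => by
        rw [hν]
        exact w2_anti hLmpos.le (hρ x) i j hij) (hsupp.trans hcnt) N hN
    rw [hLD.nu_sum x] at h8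
    exact h8

end Pool.Agent.W533.K
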