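import Pool.Agent.W533.K.Final1
import Pool.Agent.W533.K.Heavy
import Pool.Agent.W533.K.KPiece
import Pool.Agent.W533.K.Level
import Pool.Agent.W533.K.ExtTop
import Pool.Agent.W112.UK.Kirsz
import Pool.Agent.W112.UK.Kernel
import Pool.Agent.W112.UK.Transfer
import Pool.Agent.W636.UK.Weight
import Pool.Agent.W924.UK.Order
import Pool.Agent.W193.UK.Lower
import Pool.Agent.W493.UK.Upper
import Pool.Agent.W493.UK.Avg
import Pool.Agent.W382.UK.ExtRec
import Pool.Agent.W136.UK.Fin
import Pool.Agent.W486.UK.Cpt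
import Pool.Agent.W585.UK.Coord

/-!
# All parts together
-/

namespace Pool.Agent.W533.K

universe u

theorem cptAll : Cpt.{u} := by
  have hT : Transfer.{u} := Pool.Agent.W112.UK.transfer Pool.Agent.W112.UK.kirsz
  have hA : Avg.{u} := Pool.Agent.W493.UK.avg Pool.Agent.W636.UK.weight1
  have hR : ExtRec.{u} := Pool.Agent.W382.UK.extRec hT hA heavy1
  have hE : ExtTop.{u} := extTop hT hA hR
  have hK : KPiece.{u} := kpiece Pool.Agent.W112.UK.kernel
  have hL : Level.{u} := level hK Pool.Agent.W636.UK.weight2 heavy2 Pool.Agent.W193.UK.lower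
    Pool.Agent.W493.UK.upper
  exact Pool.Agent.W486.UK.cpt (Pool.Agent.W136.UK.finEmb Pool.Agent.W924.UK.orderStat hL hE)

end Pool.Agent.W533.K
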