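import Pool.Agent.W533.K.Defs

/-!
# From compactness to the statements of MP_23d2e1_gt and MP_caca3f_an
-/

namespace Pool.Agent.W533.K

open Set

universe u v

lemma one_le_ell_arg {k : ℕ} (hk : 1 ≤ k) : 1 ≤ ell k := by
  unfold ell
  have h0 : (0 : ℝ) ≤ k := by positivity
  have : 0 ≤ Real.logb 2 (1 + k) := Real.logb_nonneg (by norm_num) (by linarith)
  linarith

lemma ell_le {k : ℕ} (hk : 1 ≤ k) : ell k ≤ 2 * (1 + Real.log k) := by
  have hk1 : (1 : ℝ) ≤ k := by exact_mod_cast hk
  have hl2 : 0.6931471803 < Real.log 2 := Real.log_two_gt_d9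
  have hl2' : 0 < Real.log 2 := by linarith
  have hlk : 0 ≤ Real.log k := Real.log_nonneg hk1
  have h1 : Real.log (1 + (k : ℝ)) ≤ Real.log 2 + Real.log k := by
    rw [← Real.log_mul (by norm_num) (by linarith)]
    exact Real.log_le_log (by linarith) (by linarith)
  have h2 : Real.logb 2 (1 + k) ≤ 1 + 2 * Real.log k := by
    unfold Real.logb
    rw [div_le_iff₀ hl2']
    have h3 : Real.log k * (2 * Real.log 2 - 1) ≥ 0 := mul_nonneg hlk (by linarith)
    nlinarith
  unfold ell
  linarith

lemma ell_rpow_le {k : ℕ} (hk : 1 ≤ k) :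
    ell k ^ (7 / 2 : ℝ) ≤ 12 * (1 + Real.log k) ^ (7 / 2 : ℝ) := by
  have h0 : 0 ≤ ell k := by linarith [one_le_ell_arg hk]
  have hk1 : (1 : ℝ) ≤ k := by exact_mod_cast hk
  have hlk : 0 ≤ Real.log k := Real.log_nonneg hk1
  have h1 : ell k ^ (7 / 2 : ℝ) ≤ (2 * (1 + Real.log k)) ^ (7 / 2 : ℝ) :=
    Real.rpow_le_rpow h0 (ell_le hk) (by norm_num)
  have h2 : (2 : ℝ) ^ (7 / 2 : ℝ) ≤ 12 := by
    have h3 : (2 : ℝ) ^ (7 / 2 : ℝ) = Real.sqrt 128 := by
      rw [Real.sqrt_eq_rpow, show (128 : ℝ) = (2 : ℝ) ^ (7 : ℝ) by norm_num,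
        ← Real.rpow_mul (by norm_num)]
      norm_num
    rw [h3, Real.sqrt_le_left (by norm_num)]
    norm_num
  rw [Real.mul_rpow (by norm_num) (by linarith)] at h1
  refine h1.trans (mul_le_mul_of_nonneg_right h2 ?_)
  exact Real.rpow_nonneg (by linarith) _

lemma ell2_separable : TopologicalSpace.SeparableSpace (lp (fun _ : ℕ => ℝ) 2) := by
  have b : HilbertBasis ℕ ℝ (lp (fun _ : ℕ => ℝ) 2) :=
    HilbertBasis.ofRepr (LinearIsometryEquiv.refl ℝ _)
  have h1 : TopologicalSpace.IsSeparable
      ((Submodule.span ℝ (range b) : Submodule ℝ (lp (fun _ : ℕ => ℝ) 2)) :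
        Set (lp (fun _ : ℕ => ℝ) 2)) :=
    (countable_range b).isSeparable.span
  have h2 := h1.closure
  have h3 : closure ((Submodule.span ℝ (range b) : Submodule ℝ (lp (fun _ : ℕ => ℝ) 2)) :
      Set (lp (fun _ : ℕ => ℝ) 2)) = univ := by
    have := b.dense_span
    rw [← Submodule.topologicalClosure_coe, this]
    rfl
  rw [h3] at h2
  exact TopologicalSpace.isSeparable_univ_iff.mp h2

/-- Separability of a finite union of subsets which embed into a separable space. -/
lemma separable_of_pieces {X : Type u} [MetricSpace X] {k : ℕ} (A : Fin k → Set X)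
    (hU : (⋃ i, A i) = univ)
    (hA : ∀ i, ∃ (f : A i → lp (fun _ : ℕ => ℝ) 2) (s : ℝ), 0 < s ∧ ∀ x y,
      s * dist x y ≤ ‖f x - f y‖ ∧ ‖f x - f y‖ ≤ s * 1 * dist x y) :
    TopologicalSpace.SeparableSpace X := by
  haveI := ell2_separable
  rw [← TopologicalSpace.isSeparable_univ_iff, ← hU]
  refine TopologicalSpace.IsSeparable.iUnion fun i => ?_
  obtain ⟨f, s, hs, hf⟩ := hA i
  have hemb : Topology.IsEmbedding f := by
    have h1 : AntilipschitzWith (Real.toNNReal (1 / s)) f := by
      refine AntilipschitzWith.of_le_mul_dist fun x y => ?_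
      rw [Real.coe_toNNReal _ (by positivity), dist_eq_norm]
      have := (hf x y).1
      rw [one_div, inv_mul_eq_div, le_div_iff₀ hs]
      linarith
    have h2 : LipschitzWith (Real.toNNReal s) f := by
      refine LipschitzWith.of_dist_le_mul fun x y => ?_
      rw [Real.coe_toNNReal _ hs.le, dist_eq_norm]
      have := (hf x y).2
      linarith
    exact (h1.isUniformInducing h2.uniformContinuous).isUniformEmbedding.isEmbedding
  haveI : TopologicalSpace.SeparableSpace (A i) := by
    haveI : SecondCountableTopology (lp (fun _ : ℕ => ℝ) 2) :=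
      UniformSpace.secondCountable_of_separable _
    haveI := hemb.secondCountableTopology
    infer_instance
  have := TopologicalSpace.isSeparable_univ_iff.mpr ‹TopologicalSpace.SeparableSpace (A i)›
  have h3 := this.image (continuous_subtype_val (p := fun x => x ∈ A i))
  simpa using h3

end Pool.Agent.W533.K
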